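import Mathlib

set_option autoImplicit false

namespace Pool.Agent.Results.MP_a338c1_co.RookDomination

open Finset

/-- `p = (a,b,c)` is a cell of the triangular board with `n` rows: `a + b + c = n - 1`. -/
def IsCell (n : ℕ) (p : ℕ × ℕ × ℕ) : Prop := p.1 + p.2.1 + p.2.2 + 1 = n

/-- `S` is a covering set of rooks of the board with `n` rows: every cell agrees in at least one
coordinate with a rook. -/
def IsCovering (n : ℕ) (S : Finset (ℕ × ℕ × ℕ)) : Prop :=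
  (∀ r ∈ S, IsCell n r) ∧
    ∀ p, IsCell n p → ∃ r ∈ S, r.1 = p.1 ∨ r.2.1 = p.2.1 ∨ r.2.2 = p.2.2

/-- The domination number of the board with `n` rows. -/
noncomputable def gamma (n : ℕ) : ℕ := sInf {m | ∃ S, IsCovering n S ∧ S.card = m}

theorem exists_covering (n : ℕ) : ∃ S, IsCovering n S := by
  refine ⟨((range n) ×ˢ (range n ×ˢ range n)).filter fun p => p.1 + p.2.1 + p.2.2 + 1 = n, ?_, ?_⟩
  · intro r hr; exact (Finset.mem_filter.mp hr).2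
  · intro p hp
    refine ⟨p, ?_, Or.inl rfl⟩
    unfold IsCell at hp
    simp only [Finset.mem_filter, Finset.mem_product, Finset.mem_range]
    omega

theorem gamma_le {n : ℕ} {S : Finset (ℕ × ℕ × ℕ)} (h : IsCovering n S) : gamma n ≤ S.card :=
  Nat.sInf_le ⟨S, h, rfl⟩

theorem exists_min (n : ℕ) : ∃ S, IsCovering n S ∧ S.card = gamma n := by
  have : (gamma n) ∈ {m | ∃ S, IsCovering n S ∧ S.card = m} := by
    apply Nat.sInf_mem
    obtain ⟨S, hS⟩ := exists_covering n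
    exact ⟨S.card, S, hS, rfl⟩
  exact this

/-! ### Two more rows cost at most one rook (known) -/

theorem gamma_add_two (n : ℕ) : gamma (n + 2) ≤ gamma n + 1 := by
  classical
  obtain ⟨S, ⟨hS1, hS2⟩, hc⟩ := exists_min n
  set S' : Finset (ℕ × ℕ × ℕ) := insert (0, 0, n + 1) (S.image fun r => (r.1 + 1, r.2.1 + 1, r.2.2))
    with hS'
  have hcov : IsCovering (n + 2) S' := by
    constructor
    · intro r hr
      rw [hS', Finset.mem_insert, Finset.mem_image] at hr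
      rcases hr with rfl | ⟨s, hs, rfl⟩
      · simp only [IsCell]; omega
      · have := hS1 s hs
        simp only [IsCell] at this ⊢; omega
    · rintro ⟨a, b, c⟩ hp
      simp only [IsCell] at hp
      rcases Nat.eq_zero_or_pos a with ha | ha
      · exact ⟨(0, 0, n + 1), by rw [hS']; exact Finset.mem_insert_self _ _, Or.inl ha.symm⟩
      rcases Nat.eq_zero_or_pos b with hb | hb
      · exact ⟨(0, 0, n + 1), by rw [hS']; exact Finset.mem_insert_self _ _, Or.inr (Or.inl hb.symm)⟩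
      obtain ⟨r, hr, h⟩ := hS2 (a - 1, b - 1, c) (by simp only [IsCell]; omega)
      refine ⟨(r.1 + 1, r.2.1 + 1, r.2.2), ?_, ?_⟩
      · rw [hS']; exact Finset.mem_insert_of_mem (Finset.mem_image_of_mem _ hr)
      · simp only at h ⊢; omega
  calc gamma (n + 2) ≤ S'.card := gamma_le hcov
    _ ≤ (S.image fun r => (r.1 + 1, r.2.1 + 1, r.2.2)).card + 1 := Finset.card_insert_le _ _
    _ ≤ S.card + 1 := Nat.add_le_add_right Finset.card_image_le 1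
    _ = gamma n + 1 := by rw [hc]

theorem gamma_add_two_mul (n j : ℕ) : gamma (n + 2 * j) ≤ gamma n + j := by
  induction j with
  | zero => simp
  | succ j ih =>
    have := gamma_add_two (n + 2 * j)
    rw [show n + 2 * (j + 1) = n + 2 * j + 2 by ring]
    omega

/-! ### The lower bound `3n/7` -/

/-- The double count. -/
theorem core {n : ℕ} {S : Finset (ℕ × ℕ × ℕ)} (hS : IsCovering n S) (x y z k : ℕ)
    (hsum : x + y + z + k = n) (hx : ∀ a, a < x → ∃ r ∈ S, r.1 = a)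
    (hy : ∀ a, a < y → ∃ r ∈ S, r.2.1 = a) (hz : ∀ a, a < z → ∃ r ∈ S, r.2.2 = a)
    (hx' : 0 < k → ∀ r ∈ S, r.1 ≠ x) (hy' : 0 < k → ∀ r ∈ S, r.2.1 ≠ y)
    (hz' : 0 < k → ∀ r ∈ S, r.2.2 ≠ z) : 3 * n ≤ 7 * S.card := by
  classical
  have outer : ∀ (f : ℕ × ℕ × ℕ → ℕ) (x : ℕ), (∀ a, a < x → ∃ r ∈ S, f r = a) →
      x ≤ ∑ r ∈ S, (if f r < x then 1 else 0) := by
    intro f x h
    rw [← Finset.card_filter]
    calc x = (range x).card := (Finset.card_range x).symm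
      _ ≤ ((S.filter fun r => f r < x).image f).card := by
          apply Finset.card_le_card
          intro a ha
          rw [Finset.mem_range] at ha
          obtain ⟨r, hr, rfl⟩ := h a ha
          exact Finset.mem_image_of_mem f (Finset.mem_filter.mpr ⟨hr, ha⟩)
      _ ≤ _ := Finset.card_image_le
  have inner : ∀ (f g : ℕ × ℕ × ℕ → ℕ) (y z : ℕ),
      (∀ t, t < k → (∃ r ∈ S, f r = y + t) ∨ ∃ r ∈ S, g r = z + (k - 1 - t)) →
      k ≤ (∑ r ∈ S, (if y ≤ f r ∧ f r < y + k then 1 else 0)) +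
        ∑ r ∈ S, (if z ≤ g r ∧ g r < z + k then 1 else 0) := by
    intro f g y z h
    rw [← Finset.card_filter, ← Finset.card_filter]
    set F := S.filter fun r => y ≤ f r ∧ f r < y + k
    set G := S.filter fun r => z ≤ g r ∧ g r < z + k
    calc k = (range k).card := (Finset.card_range k).symm
      _ ≤ (F.image (fun r => f r - y) ∪ G.image (fun r => k - 1 - (g r - z))).card := by
          apply Finset.card_le_card
          intro t ht
          rw [Finset.mem_range] at ht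
          rw [Finset.mem_union, Finset.mem_image, Finset.mem_image]
          rcases h t ht with ⟨r, hr, h1⟩ | ⟨r, hr, h1⟩
          · left
            exact ⟨r, Finset.mem_filter.mpr ⟨hr, by omega, by omega⟩, by omega⟩
          · right
            exact ⟨r, Finset.mem_filter.mpr ⟨hr, by omega, by omega⟩, by omega⟩
      _ ≤ _ := (Finset.card_union_le _ _).trans (Nat.add_le_add Finset.card_image_le Finset.card_image_le)
  have o1 := outer (fun r => r.1) x hx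
  have o2 := outer (fun r => r.2.1) y hy
  have o3 := outer (fun r => r.2.2) z hz
  have i1 := inner (fun r => r.2.1) (fun r => r.2.2) y z (by
    intro t ht
    obtain ⟨r, hr, h⟩ := hS.2 (x, y + t, z + (k - 1 - t)) (by simp only [IsCell]; omega)
    rcases h with h | h | h
    · exact absurd h (hx' (by omega) r hr)
    · exact Or.inl ⟨r, hr, h⟩
    · exact Or.inr ⟨r, hr, h⟩)
  have i2 := inner (fun r => r.1) (fun r => r.2.2) x z (by
    intro t ht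
    obtain ⟨r, hr, h⟩ := hS.2 (x + t, y, z + (k - 1 - t)) (by simp only [IsCell]; omega)
    rcases h with h | h | h
    · exact Or.inl ⟨r, hr, h⟩
    · exact absurd h (hy' (by omega) r hr)
    · exact Or.inr ⟨r, hr, h⟩)
  have i3 := inner (fun r => r.1) (fun r => r.2.1) x y (by
    intro t ht
    obtain ⟨r, hr, h⟩ := hS.2 (x + t, y + (k - 1 - t), z) (by simp only [IsCell]; omega)
    rcases h with h | h | h
    · exact Or.inl ⟨r, hr, h⟩
    · exact Or.inr ⟨r, hr, h⟩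
    · exact absurd h (hz' (by omega) r hr))
  have tot : ∑ r ∈ S, (3 * ((if r.1 < x then 1 else 0) + (if r.2.1 < y then 1 else 0) +
        (if r.2.2 < z then 1 else 0)) +
      2 * ((if x ≤ r.1 ∧ r.1 < x + k then 1 else 0) + (if y ≤ r.2.1 ∧ r.2.1 < y + k then 1 else 0) +
        (if z ≤ r.2.2 ∧ r.2.2 < z + k then 1 else 0))) ≤ ∑ _r ∈ S, 7 := by
    refine Finset.sum_le_sum fun r hr => ?_
    have hc := hS.1 r hr
    simp only [IsCell] at hc
    split_ifs <;> omega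
  rw [Finset.sum_const, smul_eq_mul] at tot
  simp only [Finset.sum_add_distrib, ← Finset.mul_sum] at tot
  omega

theorem lower (n : ℕ) : 3 * n ≤ 7 * gamma n := by
  classical
  obtain ⟨S, hS, hc⟩ := exists_min n
  rw [← hc]
  -- the first missing lines
  have miss : ∀ f : ℕ × ℕ × ℕ → ℕ, ∃ x, (∀ a, a < x → ∃ r ∈ S, f r = a) ∧ ∀ r ∈ S, f r ≠ x := by
    intro f
    have hex : ∃ x, ∀ r ∈ S, f r ≠ x := by
      obtain ⟨x, hx⟩ := Infinite.exists_notMem_finset (S.image f)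
      exact ⟨x, fun r hr h => hx (h ▸ Finset.mem_image_of_mem f hr)⟩
    refine ⟨Nat.find hex, fun a ha => ?_, Nat.find_spec hex⟩
    have := Nat.find_min hex ha
    push Not at this
    exact this
  obtain ⟨x, hx, hx'⟩ := miss fun r => r.1
  obtain ⟨y, hy, hy'⟩ := miss fun r => r.2.1
  obtain ⟨z, hz, hz'⟩ := miss fun r => r.2.2
  rcases Nat.lt_or_ge (x + y + z) n with h | h
  · exact core hS x y z (n - (x + y + z)) (by omega) hx hy hz (fun _ => hx') (fun _ => hy')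
      (fun _ => hz')
  · have hx2 : min x n ≤ x := min_le_left _ _
    have hx3 : min x n ≤ n := min_le_right _ _
    set x₁ := min x n with hx₁
    have hy2 : min y (n - x₁) ≤ y := min_le_left _ _
    have hy3 : min y (n - x₁) ≤ n - x₁ := min_le_right _ _
    set y₁ := min y (n - x₁) with hy₁
    have hz2 : n - x₁ - y₁ ≤ z := by omega
    exact core hS x₁ y₁ (n - x₁ - y₁) 0 (by omega) (fun a ha => hx a (by omega))
      (fun a ha => hy a (by omega)) (fun a ha => hz a (by omega)) (by omega) (by omega) (by omega)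

/-! ### The construction -/

/-- offset of the first two coordinates -/
def X (ρ : ℕ) : ℕ := 12 * ρ + 3

/-- three rooks in the inner triangle, `Z` is the offset of the third coordinate -/
def rot (ρ Z i j k : ℕ) : Finset (ℕ × ℕ × ℕ) :=
  {(X ρ + i, X ρ + j, Z + k), (X ρ + k, X ρ + i, Z + j), (X ρ + j, X ρ + k, Z + i)}

/-- three rooks with one outer line each -/
def rotm (ρ Z j P Q : ℕ) : Finset (ℕ × ℕ × ℕ) :=
  {(X ρ - j, X ρ + P, Z + Q), (X ρ + Q, X ρ - j, Z + P), (X ρ + P, X ρ + Q, Z - j)}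

/-- The covering set for the board with `72 ρ + 19 + e` rows, `e ≤ 1`. -/
def cov (ρ e : ℕ) : Finset (ℕ × ℕ × ℕ) :=
  let Z := 12 * ρ + 3 + e
  let n := 72 * ρ + 19 + e
  {(X ρ + (12 * ρ + 3), X ρ + (12 * ρ + 3), Z + (12 * ρ + 3))} ∪
  ((range ρ).biUnion fun s => rot ρ Z (12 * ρ + 2 * s + 5) (20 * ρ + 2 * s + 7) (4 * ρ - 4 * s - 3)) ∪
  ((range ρ).biUnion fun s => rot ρ Z (4 * ρ + 2 * s + 1) (28 * ρ + 2 * s + 9) (4 * ρ - 4 * s - 1)) ∪
  ((range (3 * ρ + 1)).biUnion fun s =>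
    rotm ρ Z (4 * s + 1) (6 * ρ + 2 * s + 1) (30 * ρ + 2 * s + 9)) ∪
  ((range (3 * ρ + 1)).biUnion fun s =>
    rotm ρ Z (4 * s + 3) (14 * ρ + 2 * s + 5) (22 * ρ + 2 * s + 7)) ∪
  ((range (3 * ρ + 1)).image fun s => (2 * s + 1, n - 1 - (2 * s + 1) - (2 * s + 1 - e), 2 * s + 1 - e)) ∪
  ((range (3 * ρ + 1)).image fun s =>
    (n - 1 - (2 * s + 1) - (6 * ρ + 3 - e + 2 * s), 2 * s + 1, 6 * ρ + 3 - e + 2 * s)) ∪
  ((range (3 * ρ)).image fun s =>
    (6 * ρ + 3 + 2 * s, 6 * ρ + 3 + 2 * s, n - 1 - (6 * ρ + 3 + 2 * s) - (6 * ρ + 3 + 2 * s)))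

theorem mem_cov (ρ e : ℕ) (r : ℕ × ℕ × ℕ) : r ∈ cov ρ e ↔
    (r = (X ρ + (12 * ρ + 3), X ρ + (12 * ρ + 3), 12 * ρ + 3 + e + (12 * ρ + 3))) ∨
    (∃ s < ρ, r ∈ rot ρ (12 * ρ + 3 + e) (12 * ρ + 2 * s + 5) (20 * ρ + 2 * s + 7) (4 * ρ - 4 * s - 3)) ∨
    (∃ s < ρ, r ∈ rot ρ (12 * ρ + 3 + e) (4 * ρ + 2 * s + 1) (28 * ρ + 2 * s + 9) (4 * ρ - 4 * s - 1)) ∨
    (∃ s < 3 * ρ + 1, r ∈ rotm ρ (12 * ρ + 3 + e) (4 * s + 1) (6 * ρ + 2 * s + 1) (30 * ρ + 2 * s + 9)) ∨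
    (∃ s < 3 * ρ + 1, r ∈ rotm ρ (12 * ρ + 3 + e) (4 * s + 3) (14 * ρ + 2 * s + 5) (22 * ρ + 2 * s + 7)) ∨
    (∃ s < 3 * ρ + 1, r = (2 * s + 1, 72 * ρ + 19 + e - 1 - (2 * s + 1) - (2 * s + 1 - e), 2 * s + 1 - e)) ∨
    (∃ s < 3 * ρ + 1, r = (72 * ρ + 19 + e - 1 - (2 * s + 1) - (6 * ρ + 3 - e + 2 * s), 2 * s + 1,
      6 * ρ + 3 - e + 2 * s)) ∨
    (∃ s < 3 * ρ, r = (6 * ρ + 3 + 2 * s, 6 * ρ + 3 + 2 * s,
      72 * ρ + 19 + e - 1 - (6 * ρ + 3 + 2 * s) - (6 * ρ + 3 + 2 * s))) := by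
  simp only [cov, Finset.mem_union, Finset.mem_singleton, Finset.mem_biUnion, Finset.mem_image,
    Finset.mem_range, or_assoc, eq_comm (b := r)]

theorem cov_cells (ρ e : ℕ) (he : e ≤ 1) (r : ℕ × ℕ × ℕ) (hr : r ∈ cov ρ e) :
    IsCell (72 * ρ + 19 + e) r := by
  rw [mem_cov] at hr
  simp only [rot, rotm, X, Finset.mem_insert, Finset.mem_singleton] at hr
  unfold IsCell
  rcases hr with h | ⟨s, hs, h⟩ | ⟨s, hs, h⟩ | ⟨s, hs, h⟩ | ⟨s, hs, h⟩ | ⟨s, hs, h⟩ | ⟨s, hs, h⟩ |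
    ⟨s, hs, h⟩
  · subst h; simp only; omega
  · rcases h with h | h | h <;> subst h <;> simp only <;> omega
  · rcases h with h | h | h <;> subst h <;> simp only <;> omega
  · rcases h with h | h | h <;> subst h <;> simp only <;> omega
  · rcases h with h | h | h <;> subst h <;> simp only <;> omega
  · subst h; simp only; omega
  · subst h; simp only; omega
  · subst h; simp only; omega

theorem card_rot (ρ Z i j k : ℕ) : (rot ρ Z i j k).card ≤ 3 := Finset.card_le_three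

theorem card_rotm (ρ Z i j k : ℕ) : (rotm ρ Z i j k).card ≤ 3 := Finset.card_le_three

theorem cov_card (ρ e : ℕ) : (cov ρ e).card ≤ 33 * ρ + 9 := by
  have hb : ∀ (m : ℕ) (f : ℕ → Finset (ℕ × ℕ × ℕ)), (∀ s, (f s).card ≤ 3) →
      ((range m).biUnion f).card ≤ 3 * m := by
    intro m f hf
    refine Finset.card_biUnion_le.trans ?_
    calc ∑ s ∈ range m, (f s).card ≤ ∑ _s ∈ range m, 3 := Finset.sum_le_sum fun s _ => hf s
      _ = 3 * m := by rw [Finset.sum_const, Finset.card_range, smul_eq_mul, mul_comm]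
  have hi : ∀ (m : ℕ) (f : ℕ → ℕ × ℕ × ℕ), ((range m).image f).card ≤ m := by
    intro m f
    exact Finset.card_image_le.trans (Finset.card_range m).le
  simp only [cov]
  refine (Finset.card_union_le _ _).trans ?_
  refine (Nat.add_le_add ((Finset.card_union_le _ _).trans (Nat.add_le_add
    ((Finset.card_union_le _ _).trans (Nat.add_le_add
    ((Finset.card_union_le _ _).trans (Nat.add_le_add
    ((Finset.card_union_le _ _).trans (Nat.add_le_add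
    ((Finset.card_union_le _ _).trans (Nat.add_le_add
    ((Finset.card_union_le _ _).trans (Nat.add_le_add (Finset.card_singleton _).le
      (hb _ _ fun s => card_rot _ _ _ _ _)))
    (hb _ _ fun s => card_rot _ _ _ _ _))) (hb _ _ fun s => card_rotm _ _ _ _ _)))
    (hb _ _ fun s => card_rotm _ _ _ _ _))) (hi _ _))) (hi _ _))) (hi _ _)).trans ?_
  omega

theorem sub₁ (ρ e s : ℕ) (hs : s < ρ) :
    rot ρ (12 * ρ + 3 + e) (12 * ρ + 2 * s + 5) (20 * ρ + 2 * s + 7) (4 * ρ - 4 * s - 3) ⊆ cov ρ e :=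
  fun r hr => (mem_cov ρ e r).mpr (Or.inr (Or.inl ⟨s, hs, hr⟩))

theorem sub₂ (ρ e s : ℕ) (hs : s < ρ) :
    rot ρ (12 * ρ + 3 + e) (4 * ρ + 2 * s + 1) (28 * ρ + 2 * s + 9) (4 * ρ - 4 * s - 1) ⊆ cov ρ e :=
  fun r hr => (mem_cov ρ e r).mpr (Or.inr (Or.inr (Or.inl ⟨s, hs, hr⟩)))

theorem sub₃ (ρ e s : ℕ) (hs : s < 3 * ρ + 1) :
    rotm ρ (12 * ρ + 3 + e) (4 * s + 1) (6 * ρ + 2 * s + 1) (30 * ρ + 2 * s + 9) ⊆ cov ρ e :=
  fun r hr => (mem_cov ρ e r).mpr (Or.inr (Or.inr (Or.inr (Or.inl ⟨s, hs, hr⟩))))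

theorem sub₄ (ρ e s : ℕ) (hs : s < 3 * ρ + 1) :
    rotm ρ (12 * ρ + 3 + e) (4 * s + 3) (14 * ρ + 2 * s + 5) (22 * ρ + 2 * s + 7) ⊆ cov ρ e :=
  fun r hr => (mem_cov ρ e r).mpr (Or.inr (Or.inr (Or.inr (Or.inr (Or.inl ⟨s, hs, hr⟩)))))

/-- in all three directions the line with inner coordinate `v` carries a rook -/
def Hit (ρ e v : ℕ) : Prop :=
  (∃ r ∈ cov ρ e, r.1 = 12 * ρ + 3 + v) ∧ (∃ r ∈ cov ρ e, r.2.1 = 12 * ρ + 3 + v) ∧
    ∃ r ∈ cov ρ e, r.2.2 = 12 * ρ + 3 + e + v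

theorem rot_hit {ρ e i j k : ℕ} (h : rot ρ (12 * ρ + 3 + e) i j k ⊆ cov ρ e) :
    Hit ρ e i ∧ Hit ρ e j ∧ Hit ρ e k := by
  have h1 := h (show (X ρ + i, X ρ + j, 12 * ρ + 3 + e + k) ∈ rot ρ (12 * ρ + 3 + e) i j k by
    simp [rot])
  have h2 := h (show (X ρ + k, X ρ + i, 12 * ρ + 3 + e + j) ∈ rot ρ (12 * ρ + 3 + e) i j k by
    simp [rot])
  have h3 := h (show (X ρ + j, X ρ + k, 12 * ρ + 3 + e + i) ∈ rot ρ (12 * ρ + 3 + e) i j k by
    simp [rot])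
  exact ⟨⟨⟨_, h1, rfl⟩, ⟨_, h2, rfl⟩, ⟨_, h3, rfl⟩⟩, ⟨⟨_, h3, rfl⟩, ⟨_, h1, rfl⟩, ⟨_, h2, rfl⟩⟩,
    ⟨⟨_, h2, rfl⟩, ⟨_, h3, rfl⟩, ⟨_, h1, rfl⟩⟩⟩

theorem rotm_hit {ρ e j P Q : ℕ} (h : rotm ρ (12 * ρ + 3 + e) j P Q ⊆ cov ρ e) :
    Hit ρ e P ∧ Hit ρ e Q ∧ (∃ r ∈ cov ρ e, r.1 = 12 * ρ + 3 - j) ∧
      (∃ r ∈ cov ρ e, r.2.1 = 12 * ρ + 3 - j) ∧ ∃ r ∈ cov ρ e, r.2.2 = 12 * ρ + 3 + e - j := by
  have h1 := h (show (X ρ - j, X ρ + P, 12 * ρ + 3 + e + Q) ∈ rotm ρ (12 * ρ + 3 + e) j P Q by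
    simp [rotm])
  have h2 := h (show (X ρ + Q, X ρ - j, 12 * ρ + 3 + e + P) ∈ rotm ρ (12 * ρ + 3 + e) j P Q by
    simp [rotm])
  have h3 := h (show (X ρ + P, X ρ + Q, 12 * ρ + 3 + e - j) ∈ rotm ρ (12 * ρ + 3 + e) j P Q by
    simp [rotm])
  exact ⟨⟨⟨_, h3, rfl⟩, ⟨_, h1, rfl⟩, ⟨_, h2, rfl⟩⟩, ⟨⟨_, h2, rfl⟩, ⟨_, h3, rfl⟩, ⟨_, h1, rfl⟩⟩,
    ⟨_, h1, rfl⟩, ⟨_, h2, rfl⟩, ⟨_, h3, rfl⟩⟩

theorem inner_hit (ρ e i : ℕ) (h1 : 1 ≤ i) (h2 : i ≤ 18 * ρ + 5) : Hit ρ e (2 * i - 1) := by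
  by_cases c1 : i ≤ 2 * ρ
  · by_cases c : i % 2 = 1
    · have h := (rot_hit (sub₁ ρ e ((2 * ρ - 1 - i) / 2) (by omega))).2.2
      rwa [show 4 * ρ - 4 * ((2 * ρ - 1 - i) / 2) - 3 = 2 * i - 1 by omega] at h
    · have h := (rot_hit (sub₂ ρ e ((2 * ρ - i) / 2) (by omega))).2.2
      rwa [show 4 * ρ - 4 * ((2 * ρ - i) / 2) - 1 = 2 * i - 1 by omega] at h
  by_cases c2 : i ≤ 3 * ρ
  · have h := (rot_hit (sub₂ ρ e (i - 2 * ρ - 1) (by omega))).1
    rwa [show 4 * ρ + 2 * (i - 2 * ρ - 1) + 1 = 2 * i - 1 by omega] at h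
  by_cases c3 : i ≤ 6 * ρ + 1
  · have h := (rotm_hit (sub₃ ρ e (i - 3 * ρ - 1) (by omega))).1
    rwa [show 6 * ρ + 2 * (i - 3 * ρ - 1) + 1 = 2 * i - 1 by omega] at h
  by_cases c4 : i = 6 * ρ + 2
  · have h : (X ρ + (12 * ρ + 3), X ρ + (12 * ρ + 3), 12 * ρ + 3 + e + (12 * ρ + 3)) ∈ cov ρ e :=
      (mem_cov ρ e _).mpr (Or.inl rfl)
    have h3 : 2 * i - 1 = 12 * ρ + 3 := by omega
    rw [h3]
    exact ⟨⟨_, h, rfl⟩, ⟨_, h, rfl⟩, ⟨_, h, rfl⟩⟩
  by_cases c5 : i ≤ 7 * ρ + 2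
  · have h := (rot_hit (sub₁ ρ e (i - 6 * ρ - 3) (by omega))).1
    rwa [show 12 * ρ + 2 * (i - 6 * ρ - 3) + 5 = 2 * i - 1 by omega] at h
  by_cases c6 : i ≤ 10 * ρ + 3
  · have h := (rotm_hit (sub₄ ρ e (i - 7 * ρ - 3) (by omega))).1
    rwa [show 14 * ρ + 2 * (i - 7 * ρ - 3) + 5 = 2 * i - 1 by omega] at h
  by_cases c7 : i ≤ 11 * ρ + 3
  · have h := (rot_hit (sub₁ ρ e (i - 10 * ρ - 4) (by omega))).2.1
    rwa [show 20 * ρ + 2 * (i - 10 * ρ - 4) + 7 = 2 * i - 1 by omega] at h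
  by_cases c8 : i ≤ 14 * ρ + 4
  · have h := (rotm_hit (sub₄ ρ e (i - 11 * ρ - 4) (by omega))).2.1
    rwa [show 22 * ρ + 2 * (i - 11 * ρ - 4) + 7 = 2 * i - 1 by omega] at h
  by_cases c9 : i ≤ 15 * ρ + 4
  · have h := (rot_hit (sub₂ ρ e (i - 14 * ρ - 5) (by omega))).2.1
    rwa [show 28 * ρ + 2 * (i - 14 * ρ - 5) + 9 = 2 * i - 1 by omega] at h
  · have h := (rotm_hit (sub₃ ρ e (i - 15 * ρ - 5) (by omega))).2.1
    rwa [show 30 * ρ + 2 * (i - 15 * ρ - 5) + 9 = 2 * i - 1 by omega] at h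

theorem outerA (ρ e t : ℕ) (ht : t < 12 * ρ + 3) : ∃ r ∈ cov ρ e, r.1 = t := by
  by_cases c : t % 2 = 0
  · by_cases c' : (12 * ρ + 3 - t) % 4 = 1
    · have h := (rotm_hit (sub₃ ρ e ((12 * ρ + 3 - t) / 4) (by omega))).2.2.1
      rwa [show 12 * ρ + 3 - (4 * ((12 * ρ + 3 - t) / 4) + 1) = t by omega] at h
    · have h := (rotm_hit (sub₄ ρ e ((12 * ρ + 3 - t) / 4) (by omega))).2.2.1
      rwa [show 12 * ρ + 3 - (4 * ((12 * ρ + 3 - t) / 4) + 3) = t by omega] at h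
  · by_cases c' : t ≤ 6 * ρ + 1
    · refine ⟨_, (mem_cov ρ e _).mpr (Or.inr (Or.inr (Or.inr (Or.inr (Or.inr
        (Or.inl ⟨t / 2, by omega, rfl⟩)))))), ?_⟩
      simp only; omega
    · refine ⟨_, (mem_cov ρ e _).mpr (Or.inr (Or.inr (Or.inr (Or.inr (Or.inr (Or.inr
        (Or.inr ⟨(t - 6 * ρ - 3) / 2, by omega, rfl⟩))))))), ?_⟩
      simp only; omega

theorem outerB (ρ e t : ℕ) (ht : t < 12 * ρ + 3) : ∃ r ∈ cov ρ e, r.2.1 = t := by
  by_cases c : t % 2 = 0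
  · by_cases c' : (12 * ρ + 3 - t) % 4 = 1
    · have h := (rotm_hit (sub₃ ρ e ((12 * ρ + 3 - t) / 4) (by omega))).2.2.2.1
      rwa [show 12 * ρ + 3 - (4 * ((12 * ρ + 3 - t) / 4) + 1) = t by omega] at h
    · have h := (rotm_hit (sub₄ ρ e ((12 * ρ + 3 - t) / 4) (by omega))).2.2.2.1
      rwa [show 12 * ρ + 3 - (4 * ((12 * ρ + 3 - t) / 4) + 3) = t by omega] at h
  · by_cases c' : t ≤ 6 * ρ + 1
    · refine ⟨_, (mem_cov ρ e _).mpr (Or.inr (Or.inr (Or.inr (Or.inr (Or.inr (Or.inr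
        (Or.inl ⟨t / 2, by omega, rfl⟩))))))), ?_⟩
      simp only; omega
    · refine ⟨_, (mem_cov ρ e _).mpr (Or.inr (Or.inr (Or.inr (Or.inr (Or.inr (Or.inr
        (Or.inr ⟨(t - 6 * ρ - 3) / 2, by omega, rfl⟩))))))), ?_⟩
      simp only; omega

theorem outerC (ρ e t : ℕ) (he : e ≤ 1) (ht : t < 12 * ρ + 3 + e) : ∃ r ∈ cov ρ e, r.2.2 = t := by
  by_cases c : (12 * ρ + 3 + e - t) % 2 = 1
  · by_cases c' : (12 * ρ + 3 + e - t) % 4 = 1
    · have h := (rotm_hit (sub₃ ρ e ((12 * ρ + 3 + e - t) / 4) (by omega))).2.2.2.2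
      rwa [show 12 * ρ + 3 + e - (4 * ((12 * ρ + 3 + e - t) / 4) + 1) = t by omega] at h
    · have h := (rotm_hit (sub₄ ρ e ((12 * ρ + 3 + e - t) / 4) (by omega))).2.2.2.2
      rwa [show 12 * ρ + 3 + e - (4 * ((12 * ρ + 3 + e - t) / 4) + 3) = t by omega] at h
  · by_cases c' : t + e ≤ 6 * ρ + 1
    · refine ⟨_, (mem_cov ρ e _).mpr (Or.inr (Or.inr (Or.inr (Or.inr (Or.inr
        (Or.inl ⟨(t + e) / 2, by omega, rfl⟩)))))), ?_⟩
      simp only; omega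
    · refine ⟨_, (mem_cov ρ e _).mpr (Or.inr (Or.inr (Or.inr (Or.inr (Or.inr (Or.inr
        (Or.inl ⟨(t + e - 6 * ρ - 3) / 2, by omega, rfl⟩))))))), ?_⟩
      simp only; omega

theorem cov_covering (ρ e : ℕ) (he : e ≤ 1) : IsCovering (72 * ρ + 19 + e) (cov ρ e) := by
  refine ⟨cov_cells ρ e he, ?_⟩
  rintro ⟨a, b, c⟩ hp
  simp only [IsCell] at hp
  simp only
  by_cases ha : a < 12 * ρ + 3
  · obtain ⟨r, hr, h⟩ := outerA ρ e a ha
    exact ⟨r, hr, Or.inl h⟩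
  by_cases hb : b < 12 * ρ + 3
  · obtain ⟨r, hr, h⟩ := outerB ρ e b hb
    exact ⟨r, hr, Or.inr (Or.inl h)⟩
  by_cases hc : c < 12 * ρ + 3 + e
  · obtain ⟨r, hr, h⟩ := outerC ρ e c he hc
    exact ⟨r, hr, Or.inr (Or.inr h)⟩
  -- one of the three inner coordinates is odd
  by_cases o1 : (a - (12 * ρ + 3)) % 2 = 1
  · obtain ⟨r, hr, h⟩ := (inner_hit ρ e ((a - (12 * ρ + 3) + 1) / 2) (by omega) (by omega)).1
    exact ⟨r, hr, Or.inl (by omega)⟩
  by_cases o2 : (b - (12 * ρ + 3)) % 2 = 1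
  · obtain ⟨r, hr, h⟩ := (inner_hit ρ e ((b - (12 * ρ + 3) + 1) / 2) (by omega) (by omega)).2.1
    exact ⟨r, hr, Or.inr (Or.inl (by omega))⟩
  · obtain ⟨r, hr, h⟩ := (inner_hit ρ e ((c - (12 * ρ + 3 + e) + 1) / 2) (by omega) (by omega)).2.2
    exact ⟨r, hr, Or.inr (Or.inr (by omega))⟩

theorem upper (ρ e : ℕ) (he : e ≤ 1) : gamma (72 * ρ + 19 + e) ≤ 33 * ρ + 9 :=
  (gamma_le (cov_covering ρ e he)).trans (cov_card ρ e)

/-- the covering with `14` rooks for `n = 31` -/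
def S31 : Finset (ℕ × ℕ × ℕ) := {(2,20,8), (24,3,3), (20,6,4), (16,0,14), (3,1,26), (1,28,1),
  (14,16,0), (12,12,6), (0,14,16), (18,2,10), (8,10,12), (10,18,2), (4,8,18), (6,4,20)}

theorem cov31 : IsCovering 31 S31 := by
  have h1 : ∀ r ∈ S31, r.1 + r.2.1 + r.2.2 + 1 = 31 := by decide +kernel
  have h2 : ∀ a ∈ range 31, ∀ b ∈ range 31, a + b ≤ 30 →
      ∃ r ∈ S31, r.1 = a ∨ r.2.1 = b ∨ r.2.2 = 30 - a - b := by decide +kernel
  refine ⟨h1, ?_⟩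
  rintro ⟨a, b, c⟩ hp
  simp only [IsCell] at hp
  obtain ⟨r, hr, h⟩ := h2 a (Finset.mem_range.mpr (by omega)) b (Finset.mem_range.mpr (by omega))
    (by omega)
  refine ⟨r, hr, ?_⟩
  simp only
  omega

theorem gamma31 : gamma 31 ≤ 14 := (gamma_le cov31).trans (by decide +kernel)

/-- **Main result.** Lower and upper bounds for the domination number `γ(n)`. The suggested formula
`γ(n) = ⌊n/2⌋` fails for every even `n ≥ 20` and for every `n ≥ 31`. -/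
theorem result :
    (∀ n, 3 * n ≤ 7 * gamma n) ∧
    (∀ n, 19 ≤ n → gamma n + 3 * ((n - 19) / 72) ≤ n / 2) ∧
    (∀ n, 20 ≤ n → Even n → gamma n + 1 + 3 * ((n - 20) / 72) ≤ n / 2) ∧
    (∀ n, 31 ≤ n → gamma n + 1 ≤ n / 2) ∧
    (∀ n, 19 ≤ n → 24 * gamma n ≤ 11 * n + 77) := by
  have hA : ∀ n, 19 ≤ n → gamma n + 3 * ((n - 19) / 72) ≤ n / 2 := by
    intro n hn
    have h1 := upper ((n - 19) / 72) ((n - 19) % 2) (by omega)
    have h2 := gamma_add_two_mul (72 * ((n - 19) / 72) + 19 + (n - 19) % 2)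
      ((n - (72 * ((n - 19) / 72) + 19 + (n - 19) % 2)) / 2)
    rw [show 72 * ((n - 19) / 72) + 19 + (n - 19) % 2 +
      2 * ((n - (72 * ((n - 19) / 72) + 19 + (n - 19) % 2)) / 2) = n by omega] at h2
    omega
  have hB : ∀ n, 20 ≤ n → Even n → gamma n + 1 + 3 * ((n - 20) / 72) ≤ n / 2 := by
    intro n hn he
    rw [Nat.even_iff] at he
    have h1 := upper ((n - 20) / 72) 1 le_rfl
    have h2 := gamma_add_two_mul (72 * ((n - 20) / 72) + 19 + 1)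
      ((n - (72 * ((n - 20) / 72) + 20)) / 2)
    rw [show 72 * ((n - 20) / 72) + 19 + 1 + 2 * ((n - (72 * ((n - 20) / 72) + 20)) / 2) = n by
      omega] at h2
    omega
  refine ⟨lower, hA, hB, ?_, ?_⟩
  · intro n hn
    rcases Nat.even_or_odd n with h | h
    · have := hB n (by omega) h
      omega
    · rw [Nat.odd_iff] at h
      have h2 := gamma_add_two_mul 31 ((n - 31) / 2)
      rw [show 31 + 2 * ((n - 31) / 2) = n by omega] at h2
      have := gamma31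
      omega
  · intro n hn
    have h1 := upper ((n - 19) / 72) ((n - 19) % 2) (by omega)
    have h2 := gamma_add_two_mul (72 * ((n - 19) / 72) + 19 + (n - 19) % 2)
      ((n - (72 * ((n - 19) / 72) + 19 + (n - 19) % 2)) / 2)
    rw [show 72 * ((n - 19) / 72) + 19 + (n - 19) % 2 +
      2 * ((n - (72 * ((n - 19) / 72) + 19 + (n - 19) % 2)) / 2) = n by omega] at h2
    omega

end Pool.Agent.Results.MP_a338c1_co.RookDomination
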